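import Mathlib

set_option autoImplicit false

/-!
# MP_e24518: control functionals for vector capacities in Banach lattices with order continuous norm
-/

namespace Pool.Agent.Results.MP_e24518_an.ControlFunctional

open Filter Topology Set

section defs

variable (E : Type) [NormedAddCommGroup E] [Lattice E]

/-- Every monotone (increasing or decreasing) order bounded sequence converges in norm. -/
def OrderContinuousNorm : Prop :=
  (∀ x : ℕ → E, Monotone x → BddAbove (range x) → ∃ l, Tendsto x atTop (𝓝 l)) ∧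
  (∀ x : ℕ → E, Antitone x → BddBelow (range x) → ∃ l, Tendsto x atTop (𝓝 l))

variable {E} {X : Type} [MeasurableSpace X]

/-- Vector capacities. -/
structure IsVectorCapacity (μ : Set X → E) : Prop where
  nonneg : ∀ A, MeasurableSet A → 0 ≤ μ A
  empty : μ ∅ = 0
  mono : ∀ A B, MeasurableSet A → MeasurableSet B → A ⊆ B → μ A ≤ μ B

/-- Absolute continuity of `μ` with respect to the set function `lam`. -/
def AbsCont (μ : Set X → E) (lam : Set X → ℝ) : Prop :=
  ∀ ε > 0, ∃ δ > 0, ∀ A, MeasurableSet A → lam A < δ → ‖μ A‖ < ε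

end defs

section proof

variable {E : Type} [NormedAddCommGroup E] [Lattice E] [HasSolidNorm E] [IsOrderedAddMonoid E]
  [NormedSpace ℝ E] [IsOrderedModule ℝ E]

theorem norm_mono {a b : E} (ha : 0 ≤ a) (hab : a ≤ b) : ‖a‖ ≤ ‖b‖ := by
  refine norm_le_norm_of_abs_le_abs ?_
  rwa [abs_of_nonneg ha, abs_of_nonneg (ha.trans hab)]

theorem norm_sup_zero_smul_le (c : ℝ) (hc : 0 < c) (y : E) : ‖(c • y) ⊔ 0‖ ≤ c * ‖y ⊔ 0‖ := by
  rw [← Real.norm_of_nonneg hc.le, ← norm_smul, Real.norm_of_nonneg hc.le]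
  refine norm_mono le_sup_right (sup_le ?_ ?_)
  · exact smul_le_smul_of_nonneg_left le_sup_left hc.le
  · exact smul_nonneg hc.le le_sup_right

/-- A positive functional norming a positive element. -/
theorem exists_norming (x : E) (hx : 0 ≤ x) : ∃ g : StrongDual ℝ E, (∀ y, 0 ≤ y → 0 ≤ g y) ∧
    (∀ y, g y ≤ ‖y‖) ∧ g x = ‖x‖ := by
  by_cases hx0 : x = 0
  · exact ⟨0, fun y _ => le_rfl, fun y => norm_nonneg y, by simp [hx0]⟩
  have hN : ∀ c : ℝ, 0 < c → ∀ y : E, ‖(c • y) ⊔ 0‖ = c * ‖y ⊔ 0‖ := by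
    intro c hc y
    refine le_antisymm (norm_sup_zero_smul_le c hc y) ?_
    have := norm_sup_zero_smul_le c⁻¹ (inv_pos.2 hc) (c • y)
    rw [smul_smul, inv_mul_cancel₀ hc.ne', one_smul, inv_mul_eq_div, le_div_iff₀ hc] at this
    linarith
  have hadd : ∀ y z : E, ‖(y + z) ⊔ 0‖ ≤ ‖y ⊔ 0‖ + ‖z ⊔ 0‖ := by
    intro y z
    refine le_trans (norm_mono le_sup_right (sup_le ?_ ?_)) (norm_add_le _ _)
    · exact add_le_add le_sup_left le_sup_left
    · exact add_nonneg le_sup_right le_sup_right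
  obtain ⟨g, hg1, hg2⟩ := exists_extension_of_le_sublinear
    (LinearPMap.mkSpanSingleton x (‖x‖ : ℝ) hx0) (fun y => ‖y ⊔ 0‖) hN hadd (by
      rintro ⟨y, hy⟩
      obtain ⟨t, rfl⟩ := Submodule.mem_span_singleton.1 hy
      have happ : (LinearPMap.mkSpanSingleton x (‖x‖ : ℝ) hx0) ⟨t • x, hy⟩ = t * ‖x‖ :=
        LinearPMap.mkSpanSingleton'_apply _ _ _ t _
      rw [happ]
      change t * ‖x‖ ≤ ‖(t • x) ⊔ 0‖
      rcases le_or_gt 0 t with ht | ht
      · have : (t • x) ⊔ 0 = t • x := sup_eq_left.2 (smul_nonneg ht hx)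
        rw [this, norm_smul, Real.norm_of_nonneg ht]
      · exact (mul_nonpos_of_nonpos_of_nonneg ht.le (norm_nonneg _)).trans (norm_nonneg _))
  have hle : ∀ y, g y ≤ ‖y‖ := fun y => by
    refine (hg2 y).trans (norm_le_norm_of_abs_le_abs ?_)
    rw [abs_of_nonneg (le_sup_right : (0 : E) ≤ y ⊔ 0)]
    exact sup_le (le_abs_self y) (abs_nonneg y)
  refine ⟨g.mkContinuous 1 (fun y => ?_), fun y hy => ?_, fun y => hle y, ?_⟩
  · rw [one_mul, Real.norm_eq_abs, abs_le]
    refine ⟨?_, hle y⟩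
    have := hle (-y)
    rw [map_neg, norm_neg] at this
    linarith
  · have h1 := hg2 (-y)
    have h2 : (-y) ⊔ 0 = 0 := sup_eq_right.2 (neg_nonpos.2 hy)
    simp only [h2, norm_zero, map_neg] at h1
    change 0 ≤ g y
    linarith
  · have h1 := hg1 ⟨x, Submodule.mem_span_singleton_self x⟩
    exact h1.trans (LinearPMap.mkSpanSingleton_apply ℝ ℝ hx0 (‖x‖ : ℝ))

theorem partialSups_le_sum (y : ℕ → E) (hy : ∀ k, 0 ≤ y k) (N : ℕ) :
    partialSups y N ≤ ∑ k ∈ Finset.range (N + 1), y k := by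
  induction N with
  | zero => simp
  | succ N ih =>
    rw [partialSups_add_one, Finset.sum_range_succ]
    refine sup_le ?_ ?_
    · exact ih.trans (le_add_of_nonneg_right (hy _))
    · exact le_add_of_nonneg_left (Finset.sum_nonneg fun k _ => hy k)

/-- The key step: for each `ε` one positive functional detects the elements of `[0, w]` of norm at
least `ε`. -/
theorem exists_functional (hoc : OrderContinuousNorm E) (w : E) (ε : ℝ) (hε : 0 < ε) :
    ∃ f : StrongDual ℝ E, (∀ y, 0 ≤ y → 0 ≤ f y) ∧ ∃ δ > 0, ∀ x, 0 ≤ x → x ≤ w → f x < δ →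
      ‖x‖ < ε := by
  by_contra hcon
  push Not at hcon
  let P : Type := {f : StrongDual ℝ E // ∀ y, 0 ≤ y → 0 ≤ f y}
  have hpos : ∀ k : ℕ, (0 : ℝ) < ε / 2 * (1 / 2) ^ (k + 1) := fun k => by positivity
  choose X hX0 hXw hXδ hXε using fun (f : P) (k : ℕ) => hcon f.1 f.2 _ (hpos k)
  choose G hG0 hG1 hG2 using fun (f : P) (k : ℕ) => exists_norming (X f k) (hX0 f k)
  let F : ℕ → P := fun n => Nat.rec (motive := fun _ => P) ⟨0, fun _ _ => le_rfl⟩
    (fun k f => ⟨f.1 + G f k, fun y hy => add_nonneg (f.2 y hy) (hG0 f k y hy)⟩) n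
  have hF : ∀ k, (F (k + 1)).1 = (F k).1 + G (F k) k := fun k => rfl
  let x : ℕ → E := fun k => X (F k) k
  let g : ℕ → StrongDual ℝ E := fun k => G (F k) k
  have hx0 : ∀ k, 0 ≤ x k := fun k => hX0 _ _
  have hxw : ∀ k, x k ≤ w := fun k => hXw _ _
  have hg0 : ∀ k y, 0 ≤ y → 0 ≤ g k y := fun k => hG0 _ _
  have hg1 : ∀ k y, g k y ≤ ‖y‖ := fun k => hG1 _ _
  have hgx : ∀ k, g k (x k) = ‖x k‖ := fun k => hG2 _ _
  have hgF : ∀ n k, n < k → ∀ y, 0 ≤ y → g n y ≤ (F k).1 y := by
    intro n k hnk y hy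
    induction k with
    | zero => omega
    | succ k ih =>
      rw [hF, add_apply]
      rcases Nat.lt_succ_iff_lt_or_eq.1 hnk with h | h
      · have := ih h
        have := hG0 (F k) k y hy
        linarith
      · subst h
        have := (F n).2 y hy
        change g n y ≤ (F n).1 y + g n y
        linarith
  have hgsmall : ∀ n k, n < k → g n (x k) < ε / 2 * (1 / 2) ^ (k + 1) := fun n k hnk =>
    (hgF n k hnk _ (hx0 k)).trans_lt (hXδ (F k) k)
  -- the tail suprema
  have hsup : ∀ n, ∃ u, Tendsto (fun N => partialSups (fun k => x (n + k)) N) atTop (𝓝 u) :=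
    fun n => hoc.1 _ (partialSups _).monotone ⟨w, by
      rintro _ ⟨N, rfl⟩
      exact partialSups_le _ _ _ fun k _ => hxw _⟩
  choose u hu using hsup
  have hu0 : ∀ n, 0 ≤ u n := fun n => ge_of_tendsto' (hu n) fun N =>
    (hx0 (n + 0)).trans (le_partialSups_of_le (fun k => x (n + k)) (Nat.zero_le N))
  have hxu : ∀ n, x n ≤ u n := fun n => ge_of_tendsto' (hu n) fun N =>
    le_partialSups_of_le (fun k => x (n + k)) (Nat.zero_le N)
  have hanti : Antitone u := by
    refine antitone_nat_of_succ_le fun n => ?_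
    have h1 : Tendsto (fun N => partialSups (fun k => x (n + k)) (N + 1)) atTop (𝓝 (u n)) :=
      (hu n).comp (tendsto_add_atTop_nat 1)
    refine le_of_tendsto_of_tendsto' (hu (n + 1)) h1 fun N => ?_
    refine partialSups_le _ _ _ fun k hk => ?_
    have := le_partialSups_of_le (fun k => x (n + k)) (show k + 1 ≤ N + 1 by omega)
    simpa [add_assoc, add_comm, add_left_comm] using this
  obtain ⟨v, hv⟩ := hoc.2 u hanti ⟨0, by rintro _ ⟨n, rfl⟩; exact hu0 n⟩
  have hlim : Tendsto (fun n => ‖u n - u (n + 1)‖) atTop (𝓝 0) := by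
    have := (hv.sub (hv.comp (tendsto_add_atTop_nat 1))).norm
    simpa using this
  have hgu : ∀ n, g n (u (n + 1)) ≤ ε / 2 := by
    intro n
    have h1 : Tendsto (fun N => g n (partialSups (fun k => x (n + 1 + k)) N)) atTop
        (𝓝 (g n (u (n + 1)))) := ((g n).continuous.tendsto _).comp (hu (n + 1))
    refine le_of_tendsto' h1 fun N => ?_
    have h2 := partialSups_le_sum (fun k => x (n + 1 + k)) (fun k => hx0 _) N
    have h3 : g n (partialSups (fun k => x (n + 1 + k)) N) ≤
        g n (∑ k ∈ Finset.range (N + 1), x (n + 1 + k)) := by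
      have := hg0 n _ (sub_nonneg.2 h2)
      rw [map_sub] at this
      linarith
    refine h3.trans ?_
    rw [map_sum]
    calc ∑ k ∈ Finset.range (N + 1), g n (x (n + 1 + k))
        ≤ ∑ k ∈ Finset.range (N + 1), ε / 2 * (1 / 2) ^ (k + 1) := by
          refine Finset.sum_le_sum fun k _ => (hgsmall n _ (by omega)).le.trans ?_
          refine mul_le_mul_of_nonneg_left ?_ (by positivity)
          exact pow_le_pow_of_le_one (by norm_num) (by norm_num) (by omega)
      _ = ε / 2 * (∑ k ∈ Finset.range (N + 1), (1 / 2 : ℝ) ^ k * (1 / 2)) := by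
          rw [Finset.mul_sum]
          simp only [pow_succ]
      _ ≤ ε / 2 * 1 := by
          refine mul_le_mul_of_nonneg_left ?_ (by positivity)
          rw [← Finset.sum_mul, geom_sum_eq (by norm_num)]
          have : (0 : ℝ) < (1 / 2) ^ (N + 1) := by positivity
          norm_num
          linarith
      _ = ε / 2 := mul_one _
  obtain ⟨n, hn⟩ := (hlim.eventually (gt_mem_nhds (half_pos hε))).exists
  have h1 : g n (u n - u (n + 1)) ≤ ‖u n - u (n + 1)‖ := hg1 n _
  have h2 : g n (x n) ≤ g n (u n) := by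
    have := hg0 n _ (sub_nonneg.2 (hxu n))
    rw [map_sub] at this
    linarith
  have h3 : ε ≤ g n (x n) := by
    rw [hgx]
    exact hXε _ _
  have h4 := hgu n
  rw [map_sub] at h1
  linarith

/-- One positive functional controls the norm on the whole interval `[0, w]`. -/
theorem exists_control [CompleteSpace E] (hoc : OrderContinuousNorm E) (w : E) :
    ∃ f : StrongDual ℝ E, (∀ y, 0 ≤ y → 0 ≤ f y) ∧ ∀ ε > 0, ∃ δ > 0, ∀ x, 0 ≤ x → x ≤ w →
      f x < δ → ‖x‖ < ε := by
  choose f hf0 δ hδ hf using fun n : ℕ => exists_functional hoc w (1 / ((n : ℝ) + 1))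
    (by positivity)
  let c : ℕ → ℝ := fun n => (1 / 2) ^ n / (1 + ‖f n‖)
  have hc : ∀ n, 0 < c n := fun n => by
    have := norm_nonneg (f n)
    positivity
  have hsum : Summable fun n => c n • f n := by
    refine Summable.of_norm_bounded (g := fun n => (1 / 2 : ℝ) ^ n) summable_geometric_two
      fun n => ?_
    rw [norm_smul, Real.norm_of_nonneg (hc n).le]
    simp only [c]
    rw [div_mul_eq_mul_div, div_le_iff₀ (by have := norm_nonneg (f n); positivity)]
    refine mul_le_mul_of_nonneg_left ?_ (by positivity)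
    linarith
  have happ : ∀ y, HasSum (fun n => c n * f n y) ((∑' n, c n • f n) y) := fun y => by
    have := hsum.hasSum.mapL (ContinuousLinearMap.apply ℝ ℝ y)
    simpa using this
  refine ⟨∑' n, c n • f n, fun y hy => ?_, fun ε hε => ?_⟩
  · exact (happ y).nonneg fun n => mul_nonneg (hc n).le (hf0 n y hy)
  · obtain ⟨n, hn⟩ := exists_nat_one_div_lt hε
    refine ⟨c n * δ n, mul_pos (hc n) (hδ n), fun x hx hxw hfx => ?_⟩
    refine (hf n x hx hxw ?_).trans hn
    have h1 : c n * f n x ≤ (∑' n, c n • f n) x :=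
      le_hasSum (happ x) n fun m _ => mul_nonneg (hc m).le (hf0 m x hx)
    exact lt_of_mul_lt_mul_left (h1.trans_lt hfx) (hc n).le

end proof

/-- Every vector capacity with values in a Banach lattice with order continuous norm is absolutely
continuous with respect to the capacity `f ∘ μ` for some positive functional `f`. -/
theorem result (E : Type) [NormedAddCommGroup E] [Lattice E] [HasSolidNorm E]
    [IsOrderedAddMonoid E] [NormedSpace ℝ E] [IsOrderedModule ℝ E] [CompleteSpace E]
    (hoc : OrderContinuousNorm E) (X : Type) [MeasurableSpace X] (μ : Set X → E)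
    (hμ : IsVectorCapacity μ) :
    ∃ f : StrongDual ℝ E, (∀ y, 0 ≤ y → 0 ≤ f y) ∧ AbsCont μ (fun A => f (μ A)) := by
  obtain ⟨f, hf0, hf⟩ := exists_control hoc (μ univ)
  refine ⟨f, hf0, fun ε hε => ?_⟩
  obtain ⟨δ, hδ, h⟩ := hf ε hε
  exact ⟨δ, hδ, fun A hA hlt => h _ (hμ.nonneg A hA)
    (hμ.mono A univ hA MeasurableSet.univ (subset_univ _)) hlt⟩

end Pool.Agent.Results.MP_e24518_an.ControlFunctional
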